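import Pool.Agent.Helper79.SB.Defs
import Pool.Agent.Helper1.SR.Spec2

set_option autoImplicit false

/-!
# PROJECT SB (MP_ad201b_nt), block P: from a place of `L` to a point of `X`

`O` is a valuation ring of a field `L` between the function field `K` of `X` and `Ω`, with a
homomorphism `φ : O → E` over `k`.  It defines a point `x` of `X` with values in `E`, and every
class of `X` whose base change to `L` comes from an algebra `B` over a subfield `F` of `O` has at `x`
the value `E ⊗ B`.
-/

open MvPolynomial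
open scoped TensorProduct

namespace Pool.Agent.Helper37.SB

open Pool.Agent.SB Pool.Agent.Helper8.BR Pool.Agent.Helper1.SR

theorem aeval_scale {k E : Type} [Field k] [Field E] [Algebra k E] {n e : ℕ}
    {f : MvPolynomial (Fin (n + 1)) k} (hf : f.IsHomogeneous e) (c : E) (y : Fin (n + 1) → E) :
    aeval (fun i => c * y i) f = c ^ e * aeval y f := by
  rw [aeval_def, aeval_def, eval₂_eq', eval₂_eq', Finset.mul_sum]
  refine Finset.sum_congr rfl fun d hd => ?_
  have h1 : ∑ i, d i = e := by
    rw [hf.degree_eq_sum_deg_support hd]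
    exact (Finset.sum_subset (Finset.subset_univ _) fun i _ hi => Finsupp.notMem_support_iff.1 hi).symm
  have h2 : ∏ i, (c * y i) ^ d i = c ^ e * ∏ i, y i ^ d i := by
    simp_rw [mul_pow]
    rw [Finset.prod_mul_distrib, Finset.prod_pow_eq_pow_sum, h1]
  rw [h2]
  ring

/-- localisation of a place at its kernel -/
theorem exists_loc {L E : Type} [Field L] [Field E] (O : ValuationSubring L) (φ : O →+* E) :
    ∃ (O' : ValuationSubring L) (h : O ≤ O') (φ' : O' →+* E),
      (∀ x : O, φ' ⟨x, h x.2⟩ = φ x) ∧ ∀ x : O', φ' x ≠ 0 → (x : L)⁻¹ ∈ O' := by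
  have hP : (RingHom.ker φ).IsPrime := RingHom.ker_isPrime φ
  have hunit : ∀ y : (RingHom.ker φ).primeCompl, IsUnit (φ y) := fun y => by
    rw [isUnit_iff_ne_zero]
    exact fun h => y.2 ((RingHom.mem_ker).2 h)
  let φ' : O.ofPrime (RingHom.ker φ) →+* E :=
    IsLocalization.lift (M := (RingHom.ker φ).primeCompl) (g := φ) hunit
  have hφ' : ∀ x : O, φ' (algebraMap O (O.ofPrime (RingHom.ker φ)) x) = φ x := fun x =>
    IsLocalization.lift_eq hunit x
  refine ⟨O.ofPrime (RingHom.ker φ), O.le_ofPrime _, φ', fun x => hφ' x, fun x hx => ?_⟩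
  obtain ⟨a, s, rfl⟩ := IsLocalization.exists_mk'_eq (RingHom.ker φ).primeCompl x
  have hs : IsUnit (algebraMap O (O.ofPrime (RingHom.ker φ)) s) :=
    IsLocalization.map_units _ s
  have hmul := IsLocalization.mk'_spec (O.ofPrime (RingHom.ker φ)) a s
  have ha : a ∈ (RingHom.ker φ).primeCompl := by
    intro h0
    apply hx
    have h1 := congrArg φ' hmul
    rw [map_mul, hφ', hφ', (RingHom.mem_ker).1 h0] at h1
    exact (mul_eq_zero.1 h1).resolve_right (hunit s).ne_zero
  have hau : IsUnit (algebraMap O (O.ofPrime (RingHom.ker φ)) a) :=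
    IsLocalization.map_units _ (⟨a, ha⟩ : (RingHom.ker φ).primeCompl)
  rw [← hmul] at hau
  obtain ⟨u, hu⟩ := isUnit_of_mul_isUnit_left hau
  rw [← hu]
  have h2 : ((u : O.ofPrime (RingHom.ker φ)) : L) * (((u⁻¹ : (O.ofPrime (RingHom.ker φ))ˣ) :
      O.ofPrime (RingHom.ker φ)) : L) = 1 := by
    have h3 := congrArg (fun z : O.ofPrime (RingHom.ker φ) => (z : L)) u.mul_inv
    exact h3
  rw [inv_eq_of_mul_eq_one_right h2]
  exact Subtype.mem _

theorem exists_point (k : Type) [Field k] {Ω : Type} [Field Ω] [Algebra k Ω] {n : ℕ}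
    (ξ : Fin (n + 1) → Ω) (hξ : ξ ≠ 0) {L : Type} [Field L] [Algebra (funField k ξ) L]
    [Algebra L Ω] [IsScalarTower (funField k ξ) L Ω] {E : Type} [Field E] [Algebra k E]
    (O : ValuationSubring L) (φ : O →+* E)
    (hk : ∀ a : k, ∃ h : algebraMap (funField k ξ) L (algebraMap k (funField k ξ) a) ∈ O,
      φ ⟨_, h⟩ = algebraMap k E a) :
    ∃ x : Fin (n + 1) → E, OnX k ξ x ∧
      ∀ (e : ℕ) (g : MvPolynomial (Fin (n + 1)) k), g.IsHomogeneous e → aeval x g ≠ 0 →
      ∀ (A : Type) [Ring A] [Algebra (coordRing k ξ e g) A] [IsAzumaya (coordRing k ξ e g) A]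
        (χ : coordRing k ξ e g →+* funField k ξ), (∀ z, (χ z : Ω) = z) →
      ∀ ψ : coordRing k ξ e g →+* E, IsEval k ξ e g x ψ →
      ∀ (F : Type) [Field F] [Algebra F L] [Algebra F E],
        (∀ y : F, ∃ h : algebraMap F L y ∈ O, φ ⟨_, h⟩ = algebraMap F E y) →
      ∀ (B : Type) [Ring B] [Algebra F B] [IsAzumaya F B],
        BrEq L (L ⊗[funField k ξ] BC χ A) (L ⊗[F] B) → BrEq E (BC ψ A) (E ⊗[F] B) := by
  obtain ⟨O', hO, φ', hφ', hloc⟩ := exists_loc O φ
  have hLΩ : Function.Injective (algebraMap L Ω) := (algebraMap L Ω).injective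
  obtain ⟨i0, hi0⟩ : ∃ i, ξ i ≠ 0 := by
    by_contra h
    push Not at h
    exact hξ (funext h)
  have hmemK : ∀ i j, ξ i / ξ j ∈ funField k ξ := fun i j =>
    IntermediateField.subset_adjoin _ _ ⟨i, j, rfl⟩
  let z : Fin (n + 1) → L := fun i => algebraMap (funField k ξ) L ⟨ξ i / ξ i0, hmemK i i0⟩
  have hz : ∀ i, algebraMap L Ω (z i) = ξ i / ξ i0 := fun i => by
    change algebraMap L Ω (algebraMap (funField k ξ) L _) = _
    rw [← IsScalarTower.algebraMap_apply]
    rfl
  obtain ⟨m, hm⟩ := Finite.exists_max fun i => O'.valuation (z i)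
  have hz0 : z i0 = 1 := hLΩ (by rw [hz, div_self hi0, map_one])
  have hzm : z m ≠ 0 := by
    intro h0
    have h1 := hm i0
    change O'.valuation (z i0) ≤ O'.valuation (z m) at h1
    rw [hz0, h0, map_one, map_zero] at h1
    exact absurd h1 (not_le.2 zero_lt_one)
  have hmem : ∀ i, z i / z m ∈ O' := fun i => by
    rw [← ValuationSubring.valuation_le_one_iff, map_div₀]
    exact (div_le_one₀ (zero_lt_iff.2 (by rw [Ne, map_eq_zero]; exact hzm))).2 (hm i)
  have hξm : ξ m ≠ 0 := by
    intro h0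
    apply hzm
    apply hLΩ
    rw [hz, h0, zero_div, map_zero]
  let w : Fin (n + 1) → O' := fun i => ⟨z i / z m, hmem i⟩
  -- the homomorphism to `Ω`
  let j : O' →+* Ω := (algebraMap L Ω).comp O'.subtype
  have hj : Function.Injective j := hLΩ.comp Subtype.val_injective
  have hjw : ∀ i, j (w i) = ξ i / ξ m := fun i => by
    change algebraMap L Ω (z i / z m) = _
    rw [map_div₀, hz, hz]
    field_simp
  -- the constants
  have hkO : ∀ a : k, algebraMap (funField k ξ) L (algebraMap k (funField k ξ) a) ∈ O' :=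
    fun a => hO (hk a).1
  let κ : k →+* O' := ((algebraMap (funField k ξ) L).comp
    (algebraMap k (funField k ξ))).codRestrict O'.toSubring hkO
  have hκφ : ∀ a, φ' (κ a) = algebraMap k E a := fun a => by
    obtain ⟨h, h'⟩ := hk a
    rw [← h']
    exact hφ' ⟨_, h⟩
  have hκj : ∀ a, j (κ a) = algebraMap k Ω a := fun a => by
    change algebraMap L Ω (algebraMap (funField k ξ) L (algebraMap k (funField k ξ) a)) = _
    rw [← IsScalarTower.algebraMap_apply (funField k ξ) L Ω, ← IsScalarTower.algebraMap_apply]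
  let x : Fin (n + 1) → E := fun i => φ' (w i)
  have hV1 : ∀ f : MvPolynomial (Fin (n + 1)) k, φ' (eval₂ κ w f) = aeval x f := fun f => by
    rw [hom_eval₂, aeval_def]
    congr 1
    exact RingHom.ext hκφ
  have hV2 : ∀ f : MvPolynomial (Fin (n + 1)) k,
      j (eval₂ κ w f) = aeval (fun i => ξ i / ξ m) f := fun f => by
    rw [hom_eval₂, aeval_def]
    have h1 : j.comp κ = algebraMap k Ω := RingHom.ext hκj
    rw [h1]
    congr 1
    exact funext hjw
  have hV3 : ∀ (f : MvPolynomial (Fin (n + 1)) k) (e : ℕ), f.IsHomogeneous e →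
      aeval ξ f = ξ m ^ e * j (eval₂ κ w f) := fun f e hf => by
    rw [hV2, ← aeval_scale hf]
    congr 2
    funext i
    field_simp
  refine ⟨x, ⟨?_, ?_⟩, ?_⟩
  · intro h0
    have h1 : x m = 1 := by
      have h2 : w m = 1 := Subtype.ext (div_self hzm)
      change φ' (w m) = 1
      rw [h2, map_one]
    rw [h0] at h1
    exact zero_ne_one h1
  · intro e f hf h0
    rw [hV3 f e hf] at h0
    have h1 := (mul_eq_zero.1 h0).resolve_left (pow_ne_zero _ hξm)
    have h2 : eval₂ κ w f = 0 := hj (by rw [h1, map_zero])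
    rw [← hV1, h2, map_zero]
  · intro e g hg hgx A _ _ _ χ hχ ψ hψ F _ _ _ hF B _ _ _ hB
    have hVg : φ' (eval₂ κ w g) ≠ 0 := by rw [hV1]; exact hgx
    have hinv := hloc _ hVg
    have hVg0 : eval₂ κ w g ≠ 0 := fun h => hVg (by rw [h, map_zero])
    have hjg : j (eval₂ κ w g) ≠ 0 := fun h => hVg0 (hj (by rw [h, map_zero]))
    have hgen : ∀ f : MvPolynomial (Fin (n + 1)) k, f.IsHomogeneous e →
        aeval ξ f / aeval ξ g * j (eval₂ κ w g) = j (eval₂ κ w f) := fun f hf => by
      rw [hV3 f e hf, hV3 g e hg]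
      have := pow_ne_zero e hξm
      field_simp
    have hR : ∀ r : coordRing k ξ e g, ∃ o : O', j o = (r : Ω) := by
      rintro ⟨r, hr⟩
      change ∃ o : O', j o = r
      unfold coordRing at hr
      induction hr using Algebra.adjoin_induction with
      | mem r hr =>
        obtain ⟨f, hf, rfl⟩ := hr
        refine ⟨eval₂ κ w f * ⟨_, hinv⟩, ?_⟩
        have h1 : j ⟨_, hinv⟩ = (j (eval₂ κ w g))⁻¹ := map_inv₀ (algebraMap L Ω) _
        rw [map_mul, h1, ← hgen f hf, mul_assoc, mul_inv_cancel₀ hjg, mul_one]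
      | algebraMap a => exact ⟨κ a, hκj a⟩
      | add a b _ _ ha hb =>
        obtain ⟨o, ho⟩ := ha
        obtain ⟨o', ho'⟩ := hb
        exact ⟨o + o', by rw [map_add, ho, ho']⟩
      | mul a b _ _ ha hb =>
        obtain ⟨o, ho⟩ := ha
        obtain ⟨o', ho'⟩ := hb
        exact ⟨o * o', by rw [map_mul, ho, ho']⟩
    choose ρ hρ using hR
    let ρ' : coordRing k ξ e g →+* O' :=
      { toFun := ρ
        map_one' := hj (by rw [hρ, map_one]; rfl)
        map_mul' := fun a b => hj (by rw [hρ, map_mul, hρ, hρ]; rfl)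
        map_zero' := hj (by rw [hρ, map_zero]; rfl)
        map_add' := fun a b => hj (by rw [hρ, map_add, hρ, hρ]; rfl) }
    have hρ' : ∀ r, j (ρ' r) = (r : Ω) := hρ
    have hψρ : ∀ r : coordRing k ξ e g, φ' (ρ' r) = ψ r := by
      rintro ⟨r, hr⟩
      have hr' := hr
      unfold coordRing at hr'
      induction hr' using Algebra.adjoin_induction with
      | mem r hr' =>
        obtain ⟨f, hf, rfl⟩ := hr'
        rw [hψ.2 f hf hr, eq_div_iff hgx, ← hV1 g, ← hV1 f, ← map_mul]
        congr 1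
        apply hj
        rw [map_mul, hρ']
        exact hgen f hf
      | algebraMap a =>
        have h1 := hψ.1 a
        have h2 : ρ' ⟨algebraMap k Ω a, hr⟩ = κ a := hj (by rw [hρ', hκj])
        rw [h2, hκφ]
        exact h1.symm
      | add a b ha' hb' ha hb =>
        have e1 : (⟨a + b, hr⟩ : coordRing k ξ e g) = ⟨a, ha'⟩ + ⟨b, hb'⟩ := rfl
        rw [e1, map_add, map_add, map_add, ha, hb]
      | mul a b ha' hb' ha hb =>
        have e1 : (⟨a * b, hr⟩ : coordRing k ξ e g) = ⟨a, ha'⟩ * ⟨b, hb'⟩ := rfl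
        rw [e1, map_mul, map_mul, map_mul, ha, hb]
    have hFO : ∀ y : F, algebraMap F L y ∈ O' := fun y => hO (hF y).1
    let κF : F →+* O' := (algebraMap F L).codRestrict O'.toSubring hFO
    have hκF : ∀ y, φ' (κF y) = algebraMap F E y := fun y => by
      obtain ⟨h, h'⟩ := hF y
      rw [← h']
      exact hφ' ⟨_, h⟩
    let iRO : Algebra (coordRing k ξ e g) O' := ρ'.toAlgebra
    let iFO : Algebra F O' := κF.toAlgebra
    let iOE : Algebra O' E := φ'.toAlgebra
    let iRE : Algebra (coordRing k ξ e g) E := ψ.toAlgebra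
    let iRK : Algebra (coordRing k ξ e g) (funField k ξ) := χ.toAlgebra
    let iRL : Algebra (coordRing k ξ e g) L := ((algebraMap (funField k ξ) L).comp χ).toAlgebra
    have : IsScalarTower (coordRing k ξ e g) (funField k ξ) L :=
      IsScalarTower.of_algebraMap_eq fun r => rfl
    have : IsScalarTower (coordRing k ξ e g) O' L := IsScalarTower.of_algebraMap_eq fun r => by
      apply hLΩ
      change algebraMap L Ω (algebraMap (funField k ξ) L (χ r)) = j (ρ' r)
      rw [hρ', ← IsScalarTower.algebraMap_apply]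
      exact hχ r
    have : IsScalarTower F O' L := IsScalarTower.of_algebraMap_eq fun r => rfl
    have : IsScalarTower (coordRing k ξ e g) O' E :=
      IsScalarTower.of_algebraMap_eq fun r => (hψρ r).symm
    have : IsScalarTower F O' E := IsScalarTower.of_algebraMap_eq fun r => (hκF r).symm
    exact specialise' (coordRing k ξ e g) O' F L E A B
      ((brEq_tower (coordRing k ξ e g) (funField k ξ) L A).symm.trans hB)

end Pool.Agent.Helper37.SB
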