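import Pool.Agent.Helper37.SB.Point
import Pool.Agent.Helper82.SG.GenRep
import Pool.Agent.Helper1.SR.Split

set_option autoImplicit false

/-!
# PROJECT SB (MP_ad201b_nt), block P: points of `X` (P2) and (P3)
-/

open MvPolynomial IntermediateField NumberField IsDedekindDomain
open scoped TensorProduct

namespace Pool.Agent.SB

open Pool.Agent.Helper8.BR Pool.Agent.Helper1.SR

section

variable (k : Type) [Field k] {Ω : Type} [Field Ω] [Algebra k Ω] {n : ℕ} (ξ : Fin (n + 1) → Ω)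

/-- (P2) the point of a place: `x` and the value of `α` at `x` -/
theorem exists_point (hξ : ξ ≠ 0) (L : IntermediateField (funField k ξ) Ω)
    (O : ValuationSubring L) {E : Type} [Field E] [Algebra k E] (φ : O →+* E)
    (hφ : ∀ a : k, ∃ h : algebraMap k Ω a ∈ L, ∃ h' : (⟨algebraMap k Ω a, h⟩ : L) ∈ O,
      φ ⟨⟨algebraMap k Ω a, h⟩, h'⟩ = algebraMap k E a) :
    ∃ x : Fin (n + 1) → E, OnX k ξ x ∧ ∀ (α : BrClass k ξ) (A : Type) [Ring A]
      [Algebra (funField k ξ) A] [IsAzumaya (funField k ξ) A], GenRep k α A →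
      ∀ (F : Type) [Field F] [Algebra k F] [Algebra F L] [Algebra F E] (_ : ∀ a : F, ∃ h :
        algebraMap F L a ∈ O, φ ⟨algebraMap F L a, h⟩ = algebraMap F E a)
        (B : Type) [Ring B] [Algebra F B] [IsAzumaya F B],
      BrEq L (L ⊗[funField k ξ] A) (L ⊗[F] B) →
      ∀ (B' : Type) [Ring B'] [Algebra k B'], BrEq E (E ⊗[F] B) (E ⊗[k] B') →
      ValueIs k α x B' := by
  obtain ⟨x, hx, hval⟩ := Pool.Agent.Helper37.SB.exists_point k ξ hξ (L := L) O φ (fun a => by
    obtain ⟨h, h', h''⟩ := hφ a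
    exact ⟨h', h''⟩)
  refine ⟨x, hx, ?_⟩
  intro α A _ _ _ hA F _ _ _ _ hF B _ _ _ hB B' _ _ hB' i hi ψ hψ
  have hχ := incl_coe k ξ hξ (α.hom i)
  have h1 := BrEq.baseChange L (hA i (incl k ξ hξ (α.hom i)) hχ)
  have haz := α.azumaya i
  exact (hval (α.e i) (α.g i) (α.hom i) hi (α.A i) _ hχ ψ hψ F hF B (h1.trans hB)).trans hB'

/-- (P3) complex places: there is a point, and all values are split -/
theorem exists_point_closed (hξ : ξ ≠ 0) (E : Type) [Field E] [Algebra k E] [IsAlgClosed E] :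
    ∃ x : Fin (n + 1) → E, OnX k ξ x ∧ ∀ (α : BrClass k ξ) (B : Type) [Ring B] [Algebra k B]
      [IsAzumaya k B], ValueIs k α x B := by
  obtain ⟨m, hm⟩ : ∃ i, ξ i ≠ 0 := by
    by_contra h
    push Not at h
    exact hξ (funext h)
  let V : Subalgebra k Ω := Algebra.adjoin k (Set.range fun i => ξ i / ξ m)
  have hV : Algebra.FiniteType k V := by
    have h1 : V.FG := by
      have h2 := Subalgebra.fg_adjoin_finset (R := k) (Set.finite_range fun i => ξ i / ξ m).toFinset
      rwa [Set.Finite.coe_toFinset] at h2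
    exact (Subalgebra.fg_iff_finiteType V).1 h1
  obtain ⟨M, hM⟩ := Ideal.exists_maximal V
  let iF : Field (V ⧸ M) := Ideal.Quotient.field M
  have hfin : Module.Finite k (V ⧸ M) := finite_of_finite_type_of_isJacobsonRing k (V ⧸ M)
  have halg : Algebra.IsAlgebraic k (V ⧸ M) := Algebra.IsAlgebraic.of_finite k (V ⧸ M)
  let φ : V →ₐ[k] E := (IsAlgClosed.lift : (V ⧸ M) →ₐ[k] E).comp (Ideal.Quotient.mkₐ k M)
  let w : Fin (n + 1) → V := fun i => ⟨ξ i / ξ m, Algebra.subset_adjoin ⟨i, rfl⟩⟩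
  refine ⟨fun i => φ (w i), ⟨?_, ?_⟩, ?_⟩
  · intro h0
    have h1 : φ (w m) = 0 := congrFun h0 m
    have h2 : w m = 1 := Subtype.ext (div_self hm)
    rw [h2, map_one] at h1
    exact one_ne_zero h1
  · intro e f hf h0
    have h1 : aeval (fun i => φ (w i)) f = φ (aeval w f) :=
      (comp_aeval_apply w φ f).symm
    have h2 : ((aeval w f : V) : Ω) = aeval (fun i => ξ i / ξ m) f := by
      exact comp_aeval_apply w V.val f
    have h3 : aeval ξ f = ξ m ^ e * aeval (fun i => ξ i / ξ m) f := by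
      rw [← Pool.Agent.Helper37.SB.aeval_scale hf]
      congr 2
      funext i
      field_simp
    rw [h0] at h3
    have h4 := (mul_eq_zero.1 h3.symm).resolve_left (pow_ne_zero _ hm)
    rw [h1]
    have h5 : aeval w f = 0 := Subtype.ext (by rw [h2, h4]; rfl)
    rw [h5, map_zero]
  · intro α B _ _ _ i hi ψ hψ
    have haz := α.azumaya i
    let iRE : Algebra (coordRing k ξ (α.e i) (α.g i)) E := ψ.toAlgebra
    have h1 : IsAzumaya E (E ⊗[coordRing k ξ (α.e i) (α.g i)] α.A i) :=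
      az_baseChange' (coordRing k ξ (α.e i) (α.g i)) E (α.A i)
    have h2 : IsAzumaya E (E ⊗[k] B) := az_baseChange' k E B
    obtain ⟨a, ha, -, ⟨e1⟩⟩ := exists_equiv E (E ⊗[coordRing k ξ (α.e i) (α.g i)] α.A i)
    obtain ⟨b, hb, -, ⟨e2⟩⟩ := exists_equiv E (E ⊗[k] B)
    exact ((BrEq.of_algEquiv e1).trans (BrEq.matrix E E a ha)).trans
      ((BrEq.of_algEquiv e2).trans (BrEq.matrix E E b hb)).symm

end

end Pool.Agent.SB
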